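import Pool.Agent.Helper88_SO.Tools

/-!
# The vertices below a door: common lemmas for HCX, HDX, HOX, HCO, HDO, HOO
-/

namespace Pool.Agent.SO.H22

open Pool.Agent.SO

variable {n m : ℕ} {T : Fin m → Fin 3 → Fin n} {j : Fin m} {gam sg mu : ℝ}
  {S : Fin (n + 2) → ℝ} {Q : Vx n m → Pt}

/-- the function `e Y - c₁ x - c₂` in the coordinates `x = u / v`, `Y = - rho / v` -/
theorem aff_pi (e c1 c2 rho a Y : ℝ) (hY : 0 < Y) :
    aff (e * rho, c1, c2) (piP rho a Y) = rho / Y * (e * Y - c1 * a - c2) := by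
  simp only [aff, piP]
  field_simp
  ring

theorem pi_pos {e c1 c2 rho a Y : ℝ} (hr : 0 < rho) (hY : 0 < Y)
    (h : 0 < e * Y - c1 * a - c2) : 0 < aff (e * rho, c1, c2) (piP rho a Y) := by
  rw [aff_pi _ _ _ _ _ _ hY]; positivity

theorem pi_le {e c1 c2 rho a Y : ℝ} (hr : 0 < rho) (hY : 0 < Y)
    (h : e * Y - c1 * a - c2 ≤ 0) : aff (e * rho, c1, c2) (piP rho a Y) ≤ 0 := by
  rw [aff_pi _ _ _ _ _ _ hY]
  exact mul_nonpos_of_nonneg_of_nonpos (by positivity) h

theorem pi_zero {e c1 c2 rho a Y : ℝ} (hY : 0 < Y)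
    (h : e * Y - c1 * a - c2 = 0) : aff (e * rho, c1, c2) (piP rho a Y) = 0 := by
  rw [aff_pi _ _ _ _ _ _ hY, h, mul_zero]

theorem Q_jl (hV : View T j gam sg mu S Q) :
    Q (.jam j false) = (-(sg / 100 * (gam / 40000)), 0) := by
  rw [hV.own _ rfl]
  simp only [own]
  ext <;> simp
  ring

theorem Q_jr (hV : View T j gam sg mu S Q) :
    Q (.jam j true) = (sg / 100 * (gam / 40000), 0) := by
  rw [hV.own _ rfl]
  simp only [own]
  ext <;> simp
  ring

/-- abscissa of a jamb divided by `rho` -/
noncomputable def jx (gam : ℝ) (s : Bool) : ℝ := if s then gam / 40000 else -(gam / 40000)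

theorem Q_jam (hV : View T j gam sg mu S Q) (s : Bool) :
    Q (.jam j s) = (sg / 100 * jx gam s, 0) := by
  cases s
  · rw [Q_jl hV]; simp [jx]
  · rw [Q_jr hV]; simp [jx]

theorem aff_jam (hV : View T j gam sg mu S Q) (e c1 c2 : ℝ) (s : Bool) :
    aff (e * (sg / 100), c1, c2) (Q (.jam j s)) = sg / 100 * (e + c1 * jx gam s) := by
  rw [Q_jam hV]; simp only [aff]; ring

theorem jam_le (hV : View T j gam sg mu S Q) {e c1 c2 : ℝ} {s : Bool}
    (h : e + c1 * jx gam s ≤ 0) : aff (e * (sg / 100), c1, c2) (Q (.jam j s)) ≤ 0 := by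
  rw [aff_jam hV]
  have := hV.sg_pos
  exact mul_nonpos_of_nonneg_of_nonpos (by positivity) h

theorem jam_pos (hV : View T j gam sg mu S Q) {e c1 c2 : ℝ} {s : Bool}
    (h : 0 < e + c1 * jx gam s) : 0 < aff (e * (sg / 100), c1, c2) (Q (.jam j s)) := by
  rw [aff_jam hV]
  have := hV.sg_pos
  positivity

/-- the slope coordinate of a vertex below the door -/
noncomputable def xc (T : Fin m → Fin 3 → Fin n) (gam : ℝ) (S : Fin (n + 2) → ℝ) : Vx n m → ℝ
  | .pr j k => S (el T j k)
  | .hc j k => aC (S (el T j k))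
  | .hd _ true => -2
  | .hd _ false => 2
  | .ho j false t => min (S (el T j (kk t))) (S (el T j 1)) - gam / 2
  | .ho j true t => max (S (el T j (kk t))) (S (el T j 1)) + gam / 2
  | _ => 0

/-- the inverse depth of a vertex below the door -/
noncomputable def yc (T : Fin m → Fin 3 → Fin n) (S : Fin (n + 2) → ℝ) : Vx n m → ℝ
  | .pr j k => 100 + S (el T j k) ^ 2
  | .hc j k => 100 - S (el T j k) ^ 2 + 2 * S (el T j k) * aC (S (el T j k))
  | .hd _ _ => 50
  | .ho _ _ _ => 1
  | _ => 0

theorem Q_gad (hV : View T j gam sg mu S Q) {g : Vx n m} (hg : Gad j g) :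
    Q g = piP (sg / 100) (xc T gam S g) (yc T S g) := by
  cases g with
  | pr j' k => obtain rfl : j' = j := hg; rw [hV.own _ rfl]; rfl
  | hc j' k => obtain rfl : j' = j := hg; rw [hV.own _ rfl]; rfl
  | hd j' s => obtain rfl : j' = j := hg; rw [hV.own _ rfl]; cases s <;> rfl
  | ho j' s t => obtain rfl : j' = j := hg; rw [hV.own _ rfl]; cases s <;> rfl
  | top i => exact hg.elim
  | hel i => exact hg.elim
  | jam j' s => exact hg.elim
  | hj j' s => exact hg.elim

theorem S_le (hV : View T j gam sg mu S Q) (i : Fin (n + 2)) : S i ≤ 11 / 10 :=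
  (abs_le.1 (hV.S_abs i)).2

theorem le_S (hV : View T j gam sg mu S Q) (i : Fin (n + 2)) : -(11 / 10) ≤ S i :=
  (abs_le.1 (hV.S_abs i)).1

theorem S_sq (hV : View T j gam sg mu S Q) (i : Fin (n + 2)) : S i ^ 2 ≤ 121 / 100 := by
  nlinarith [S_le hV i, le_S hV i]

theorem yc_bounds (hV : View T j gam sg mu S Q) {g : Vx n m} (hg : Gad j g) :
    1 ≤ yc T S g ∧ yc T S g ≤ 107 := by
  cases g with
  | pr j' k =>
    have := S_sq hV (el T j' k)
    simp only [yc]
    constructor <;> nlinarith [sq_nonneg (S (el T j' k))]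
  | hc j' k =>
    have h1 := S_le hV (el T j' k)
    have h2 := le_S hV (el T j' k)
    simp only [yc, aC]
    constructor <;> nlinarith
  | hd j' s => simp only [yc]; norm_num
  | ho j' s t => simp only [yc]; norm_num
  | top i => exact hg.elim
  | hel i => exact hg.elim
  | jam j' s => exact hg.elim
  | hj j' s => exact hg.elim

theorem xc_bounds (hV : View T j gam sg mu S Q) {g : Vx n m} (hg : Gad j g) :
    -3 ≤ xc T gam S g ∧ xc T gam S g ≤ 3 := by
  have hg0 := hV.gam_pos
  have hg1 := hV.gam_le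
  cases g with
  | pr j' k =>
    have h1 := S_le hV (el T j' k)
    have h2 := le_S hV (el T j' k)
    simp only [xc]
    constructor <;> linarith
  | hc j' k =>
    have h1 := S_le hV (el T j' k)
    have h2 := le_S hV (el T j' k)
    simp only [xc, aC]
    constructor <;> linarith
  | hd j' s => cases s <;> simp only [xc] <;> norm_num
  | ho j' s t =>
    have h1 := S_le hV (el T j' (kk t))
    have h2 := le_S hV (el T j' (kk t))
    have h3 := S_le hV (el T j' 1)
    have h4 := le_S hV (el T j' 1)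
    cases s
    · simp only [xc]
      rcases min_choice (S (el T j' (kk t))) (S (el T j' 1)) with h | h <;> rw [h] <;>
        constructor <;> linarith
    · simp only [xc]
      rcases max_choice (S (el T j' (kk t))) (S (el T j' 1)) with h | h <;> rw [h] <;>
        constructor <;> linarith
  | top i => exact hg.elim
  | hel i => exact hg.elim
  | jam j' s => exact hg.elim
  | hj j' s => exact hg.elim

/-- slopes of the vertices `ho` -/
theorem xc_ho (hV : View T j gam sg mu S Q) (s t : Bool) :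
    -(128 / 100) ≤ xc T gam S (.ho j s t) ∧ xc T gam S (.ho j s t) ≤ 128 / 100 := by
  have hg0 := hV.gam_pos
  have hg1 := hV.gam_le
  have h1 := S_le hV (el T j (kk t))
  have h2 := le_S hV (el T j (kk t))
  have h3 := S_le hV (el T j 1)
  have h4 := le_S hV (el T j 1)
  cases s
  · simp only [xc]
    rcases min_choice (S (el T j (kk t))) (S (el T j 1)) with h | h <;> rw [h] <;>
      constructor <;> linarith
  · simp only [xc]
    rcases max_choice (S (el T j (kk t))) (S (el T j 1)) with h | h <;> rw [h] <;>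
      constructor <;> linarith

theorem gad_pos (hV : View T j gam sg mu S Q) {g : Vx n m} (hg : Gad j g) {e c1 c2 : ℝ}
    (h : 0 < e * yc T S g - c1 * xc T gam S g - c2) :
    0 < aff (e * (sg / 100), c1, c2) (Q g) := by
  have := hV.sg_pos
  rw [Q_gad hV hg]
  exact pi_pos (by positivity) (by linarith [(yc_bounds hV hg).1]) h

theorem gad_le (hV : View T j gam sg mu S Q) {g : Vx n m} (hg : Gad j g) {e c1 c2 : ℝ}
    (h : e * yc T S g - c1 * xc T gam S g - c2 ≤ 0) :
    aff (e * (sg / 100), c1, c2) (Q g) ≤ 0 := by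
  have := hV.sg_pos
  rw [Q_gad hV hg]
  exact pi_le (by positivity) (by linarith [(yc_bounds hV hg).1]) h

theorem gad_zero (hV : View T j gam sg mu S Q) {g : Vx n m} (hg : Gad j g) {e c1 c2 : ℝ}
    (h : e * yc T S g - c1 * xc T gam S g - c2 = 0) :
    aff (e * (sg / 100), c1, c2) (Q g) = 0 := by
  rw [Q_gad hV hg]
  exact pi_zero (by linarith [(yc_bounds hV hg).1]) h

theorem gad_small (hV : View T j gam sg mu S Q) {g : Vx n m} (hg : Gad j g) :
    0 < gam / 40000 * yc T S g ∧ gam / 40000 * yc T S g ≤ gam * (107 / 40000) := by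
  have h := hV.gam_pos
  obtain ⟨h1, h2⟩ := yc_bounds hV hg
  constructor
  · positivity
  · nlinarith

/-- the slopes of the five top vertices of the door are different -/
theorem S_dist (hV : View T j gam sg mu S Q) {k k' : Fin 5} (h : k ≠ k') :
    gam ≤ |S (el T j k) - S (el T j k')| := by
  refine hV.S_gap _ _ ?_
  intro he
  have h0 := hV.S_big 0 (by decide)
  have h1 := hV.S_big 1 (by decide)
  have h2 := hV.S_big 2 (by decide)
  have h4 := hV.S_last
  have he' : S (el T j k) = S (el T j k') := by rw [he]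
  fin_cases k <;> fin_cases k' <;> first | exact h rfl | skip
  all_goals
    simp only [Fin.zero_eta, Fin.mk_one, Fin.reduceFinMk] at he'
    rcases hV.S_mid with h3 | h3 <;> linarith

/-- vertices which are neither below the door nor the helper `hj j true` -/
theorem v_nonneg (hV : View T j gam sg mu S Q) {z : Vx n m} (hg : ¬ Gad j z)
    (hz : z ≠ .hj j true) : 0 ≤ (Q z).2 := by
  have hmu := hV.mu_pos
  have hsg := hV.sg_pos
  cases z with
  | top i => linarith [(hV.top_v i).1]
  | hel i => linarith [(hV.hel_v i).1]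
  | jam j' s =>
    by_cases h : j' = j
    · subst h; rw [Q_jam hV]
    · exact (hV.far_v _ _ rfl h).le
  | hj j' s =>
    by_cases h : j' = j
    · subst h
      cases s
      · rw [hV.own _ rfl]; simp only [own]; positivity
      · exact absurd rfl hz
    · exact (hV.far_v _ _ rfl h).le
  | pr j' k => exact (hV.far_v _ _ rfl hg).le
  | hc j' k => exact (hV.far_v _ _ rfl hg).le
  | hd j' s => exact (hV.far_v _ _ rfl hg).le
  | ho j' s t => exact (hV.far_v _ _ rfl hg).le

theorem Q_hjt (hV : View T j gam sg mu S Q) : Q (.hj j true) = (-sg, -(sg / 4)) := by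
  rw [hV.own _ rfl]; rfl

/-- The certificates for the edges without a vertex below the door. -/
theorem exposed_gad (hV : View T j gam sg mu S Q) {b : Vx n m} (hb : Gad j b) {s : Bool}
    (hadj : (Gr T).Adj b (.jam j s))
    (H : ∀ x y, Gad j x → (Gr T).Adj x y → x ≠ b → y ≠ b →
      ∃ c, 0 < aff c (Q b) ∧ aff c (Q (.jam j s)) ≤ aff c (Q b) ∧ aff c (Q x) ≤ 0 ∧
        aff c (Q y) ≤ 0) : Exposed (Gr T) Q b (.jam j s) := by
  have hsg := hV.sg_pos
  have hgam := hV.gam_pos
  have hgam' := hV.gam_le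
  obtain ⟨hy1, hy2⟩ := yc_bounds hV hb
  obtain ⟨hx1, hx2⟩ := xc_bounds hV hb
  have hQb := Q_gad hV hb
  have hY : 0 < yc T S b := by linarith
  have hvb : (Q b).2 < 0 := by
    rw [hQb]; simp only [piP]
    have : 0 < sg / 100 / yc T S b := by positivity
    linarith
  refine ⟨hadj, ?_, ?_⟩
  · intro h
    rw [h, Q_jam hV] at hvb
    exact lt_irrefl _ hvb
  intro x y hxy hxb hyb
  by_cases hgx : Gad j x
  · exact H x y hgx hxy hxb hyb
  by_cases hgy : Gad j y
  · obtain ⟨c, h1, h2, h3, h4⟩ := H y x hgy hxy.symm hyb hxb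
    exact ⟨c, h1, h2, h4, h3⟩
  -- the certificate for the edges at `hj j true`
  have hHT : ∀ x y : Vx n m, (Gr T).Adj x y → x = .hj j true → ∃ c, 0 < aff c (Q b) ∧
      aff c (Q (.jam j s)) ≤ aff c (Q b) ∧ aff c (Q x) ≤ 0 ∧ aff c (Q y) ≤ 0 := by
    intro x y hxy hx
    subst hx
    refine ⟨(29 / 100 * (gam / 40000) * (sg / 100), 29 / 100, -1), ?_, ?_, ?_, ?_⟩
    · rw [hQb]
      refine pi_pos (by positivity) hY ?_
      have : 0 < gam / 40000 * yc T S b := by positivity
      nlinarith
    · rw [hQb, aff_pi _ _ _ _ _ _ hY, aff_jam hV]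
      have h0 : jx gam s ≤ gam / 40000 := by
        cases s <;> simp only [jx] <;> simp <;> linarith
      rw [show sg / 100 / yc T S b * (29 / 100 * (gam / 40000) * yc T S b -
        29 / 100 * xc T gam S b - -1) = sg / 100 * ((29 / 100 * (gam / 40000) * yc T S b -
        29 / 100 * xc T gam S b - -1) / yc T S b) by ring]
      have hr : (0 : ℝ) ≤ sg / 100 := by positivity
      refine mul_le_mul_of_nonneg_left ?_ hr
      rw [le_div_iff₀ hY]
      have h3 : jx gam s * yc T S b ≤ gam / 40000 * yc T S b :=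
        mul_le_mul_of_nonneg_right h0 hY.le
      have h4 : gam / 40000 * yc T S b ≤ (7 / 20) / 40000 * 107 := by
        have : gam / 40000 ≤ (7 / 20) / 40000 := by linarith
        exact mul_le_mul this hy2 hY.le (by norm_num)
      nlinarith
    · rw [Q_hjt hV]
      simp only [aff]
      nlinarith
    · rcases adj_hjt hxy with ⟨i, rfl⟩ | rfl
      · have h1 := (abs_le.1 (hV.top_u i)).2
        have h2 := (hV.top_v i).1
        have h3 := hV.sg_le
        simp only [aff]
        nlinarith
      · rw [Q_jl hV]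
        simp only [aff]
        nlinarith
  by_cases hx : x = .hj j true
  · exact hHT x y hxy hx
  by_cases hy : y = .hj j true
  · obtain ⟨c, h1, h2, h3, h4⟩ := hHT y x hxy.symm hy
    exact ⟨c, h1, h2, h4, h3⟩
  refine ⟨((Q b).2 / 2, 0, -1), ?_, ?_, ?_, ?_⟩
  · simp only [aff]; linarith
  · rw [Q_jam hV]; simp only [aff]; linarith
  · have := v_nonneg hV hgx hx; simp only [aff]; linarith
  · have := v_nonneg hV hgy hy; simp only [aff]; linarith

end Pool.Agent.SO.H22
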