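import Pool.Agent.Helper22_SO.Exp

/-!
# HCO, HDO, HOO: cones of the vertices below a door
-/

namespace Pool.Agent.SO.H22

open Pool.Agent.SO

variable {n m : ℕ} {T : Fin m → Fin 3 → Fin n} {j : Fin m} {gam sg mu : ℝ}
  {S : Fin (n + 2) → ℝ} {Q : Vx n m → Pt}

theorem adj_hc {k : Fin 5} {y : Vx n m} (h : (Gr T).Adj (.hc j k) y) :
    (∃ k', k' ≠ k ∧ y = .pr j k') ∨ ∃ s, y = .jam j s := by
  obtain ⟨-, h⟩ := h
  cases y <;> simp_all [adj0] <;> tauto

theorem adj_hd {s : Bool} {y : Vx n m} (h : (Gr T).Adj (.hd j s) y) :
    (∃ k', y = .pr j k') ∨ y = .jam j (!s) := by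
  obtain ⟨-, h⟩ := h
  cases y <;> cases s <;> simp_all [adj0]

theorem adj_ho {s t : Bool} {y : Vx n m} (h : (Gr T).Adj (.ho j s t) y) :
    y = .pr j 1 ∨ y = .pr j (kk t) ∨ y = .jam j s := by
  obtain ⟨-, h⟩ := h
  cases y <;> simp_all [adj0, kk]

theorem hco : HcoStmt := by
  intro n m T j gam sg mu S Q hV k
  have hsg := hV.sg_pos
  have hr : 0 < sg / 100 := by positivity
  have hgam := hV.gam_pos
  have hgam' := hV.gam_le
  have hb : Gad j (Vx.hc j k : Vx n m) := rfl
  have hS1 := S_le hV (el T j k)
  have hS2 := le_S hV (el T j k)
  have hS3 := S_sq hV (el T j k)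
  have hpr : ∀ k', Gad j (Vx.pr j k' : Vx n m) := fun _ => rfl
  obtain ⟨hx1, hx2, hy1⟩ := xc_hc hV k
  obtain ⟨hb1, hb2⟩ := gad_small hV hb
  -- the tangent
  have htan : ∀ v, Gad j v → 0 < -yc T S v + 2 * S (el T j k) * xc T gam S v +
      (100 - S (el T j k) ^ 2) → OutCone (Gr T) Q (.hc j k) v := by
    intro v hv hpos
    refine ⟨(-1 * (sg / 100), -2 * S (el T j k), -(100 - S (el T j k) ^ 2)), ?_, ?_, ?_⟩
    · refine gad_zero hV hb ?_
      simp only [xc, yc]
      ring
    · refine gad_pos hV hv ?_
      linarith
    · intro y hy
      rcases adj_hc hy with ⟨k', -, rfl⟩ | ⟨s, rfl⟩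
      · refine gad_le hV (hpr k') ?_
        simp only [xc, yc]
        nlinarith [sq_nonneg (S (el T j k') - S (el T j k))]
      · have := jx_abs hV s
        exact jam_le hV (by nlinarith)
  refine ⟨?_, ?_, ?_, ?_⟩
  · refine ⟨(-1 * (sg / 100), -(2 * S (el T j k) + gam ^ 2 / 10),
      -(100 - S (el T j k) ^ 2 - gam ^ 2 / 10 * aC (S (el T j k)))), ?_, ?_, ?_⟩
    · refine gad_zero hV hb ?_
      simp only [xc, yc]
      ring
    · refine gad_pos hV (hpr k) ?_
      have h1 : 0 < gam ^ 2 / 10 * (S (el T j k) - aC (S (el T j k))) := by
        have : 0 < S (el T j k) - aC (S (el T j k)) := by simp only [aC]; linarith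
        positivity
      simp only [xc, yc]
      linarith
    · intro y hy
      rcases adj_hc hy with ⟨k', hne, rfl⟩ | ⟨s, rfl⟩
      · refine gad_le hV (hpr k') ?_
        have hT1 := S_le hV (el T j k')
        have hgap := S_dist hV hne
        have h2 : gam ^ 2 ≤ (S (el T j k') - S (el T j k)) ^ 2 := by
          rw [← sq_abs (S (el T j k') - S (el T j k))]
          exact pow_le_pow_left₀ hgam.le hgap 2
        have h1 : gam ^ 2 / 10 * (S (el T j k') - aC (S (el T j k))) ≤ gam ^ 2 / 10 * 4 := by
          refine mul_le_mul_of_nonneg_left ?_ (by positivity)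
          simp only [aC]; linarith
        simp only [xc, yc]
        nlinarith
      · have h3 := jx_abs hV s
        have h4 : gam ^ 2 ≤ 1 := by nlinarith
        have h5 : 0 ≤ gam ^ 2 := by positivity
        refine jam_le hV ?_
        have h6 : |(2 * S (el T j k) + gam ^ 2 / 10) * jx gam s| ≤ 3 * 1 := by
          rw [abs_mul]
          refine mul_le_mul ?_ ?_ (abs_nonneg _) (by norm_num)
          · rw [abs_le]; constructor <;> linarith
          · rw [abs_le]; constructor <;> linarith
        have h7 : |(2 * S (el T j k) + gam ^ 2 / 10) * jx gam s| ≤ 3 * (gam / 40000) := by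
          rw [abs_mul]
          refine mul_le_mul ?_ ?_ (abs_nonneg _) (by norm_num)
          · rw [abs_le]; constructor <;> linarith
          · rw [abs_le]; constructor <;> linarith
        have := (abs_le.1 h7).1
        linarith
  · intro k' hlt
    have hc' : Gad j (Vx.hc j k' : Vx n m) := rfl
    have hne : k' ≠ k := by rintro rfl; exact lt_irrefl _ hlt
    have hgap := S_dist hV hne
    rw [abs_of_neg (by linarith)] at hgap
    refine ⟨(-(gam / 40000) * (sg / 100), 1,
      -(xc T gam S (Vx.hc j k) + gam / 40000 * yc T S (Vx.hc j k))), ?_, ?_, ?_⟩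
    · refine gad_zero hV hb ?_
      ring
    · have h2 := gad_small hV hc'
      refine gad_pos hV hc' ?_
      simp only [xc, aC] at *
      linarith
    · intro y hy
      rcases adj_hc hy with ⟨i, -, rfl⟩ | ⟨s, rfl⟩
      · have h2 := gad_small hV (hpr i)
        have hS := le_S hV (el T j i)
        refine gad_le hV (hpr i) ?_
        have e1 : xc T gam S (.pr j i) = S (el T j i) := rfl
        rw [e1]
        linarith
      · have := jx_abs hV s
        exact jam_le hV (by linarith)
  · intro s
    refine htan _ rfl ?_
    cases s <;> simp only [xc, yc] <;> nlinarith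
  · intro s t
    have := xc_ho hV s t
    refine htan _ rfl ?_
    simp only [yc]
    nlinarith

theorem hdo : HdoStmt := by
  intro n m T j gam sg mu S Q hV
  have hsg := hV.sg_pos
  have hr : 0 < sg / 100 := by positivity
  have hgam := hV.gam_pos
  have hgam' := hV.gam_le
  have hb : ∀ s, Gad j (Vx.hd j s : Vx n m) := fun _ => rfl
  have hpr : ∀ k', Gad j (Vx.pr j k' : Vx n m) := fun _ => rfl
  have ht : ∀ v, Gad j v → 0 < -yc T S v + xc T gam S v + 52 →
      OutCone (Gr T) Q (.hd j true) v := by
    intro v hv hpos
    refine ⟨(-1 * (sg / 100), -1, -52), ?_, ?_, ?_⟩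
    · refine gad_zero hV (hb _) ?_
      simp only [xc, yc]
      norm_num
    · refine gad_pos hV hv ?_
      linarith
    · intro y hy
      rcases adj_hd hy with ⟨k', rfl⟩ | rfl
      · have hT1 := S_le hV (el T j k')
        refine gad_le hV (hpr k') ?_
        simp only [xc, yc]
        nlinarith [sq_nonneg (S (el T j k'))]
      · have := jx_abs hV (!true)
        exact jam_le hV (by linarith)
  have hf : ∀ v, Gad j v → 0 < -yc T S v - xc T gam S v + 52 →
      OutCone (Gr T) Q (.hd j false) v := by
    intro v hv hpos
    refine ⟨(-1 * (sg / 100), 1, -52), ?_, ?_, ?_⟩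
    · refine gad_zero hV (hb _) ?_
      simp only [xc, yc]
      norm_num
    · refine gad_pos hV hv ?_
      linarith
    · intro y hy
      rcases adj_hd hy with ⟨k', rfl⟩ | rfl
      · have hT1 := le_S hV (el T j k')
        refine gad_le hV (hpr k') ?_
        simp only [xc, yc]
        nlinarith [sq_nonneg (S (el T j k'))]
      · have := jx_abs hV (!false)
        exact jam_le hV (by linarith)
  refine ⟨?_, ?_, ?_⟩
  · intro s
    cases s
    · -- `b = hd false` at slope `2`, neighbour `jam true`, target `jam false`
      refine ⟨(gam / 40000 * (sg / 100), -1, 2 + gam / 40000 * 50), ?_, ?_, ?_⟩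
      · refine gad_zero hV (hb _) ?_
        simp only [xc, yc]
        ring
      · refine jam_pos hV ?_
        simp only [jx]
        simp
        linarith
      · intro y hy
        rcases adj_hd hy with ⟨k', rfl⟩ | rfl
        · have hT1 := S_le hV (el T j k')
          have h2 := gad_small hV (hpr k')
          refine gad_le hV (hpr k') ?_
          have e1 : xc T gam S (.pr j k') = S (el T j k') := rfl
          rw [e1]
          linarith
        · refine jam_le hV ?_
          simp [jx]
    · refine ⟨(gam / 40000 * (sg / 100), 1, 2 + gam / 40000 * 50), ?_, ?_, ?_⟩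
      · refine gad_zero hV (hb _) ?_
        simp only [xc, yc]
        ring
      · refine jam_pos hV ?_
        simp only [jx]
        simp
        linarith
      · intro y hy
        rcases adj_hd hy with ⟨k', rfl⟩ | rfl
        · have hT1 := le_S hV (el T j k')
          have h2 := gad_small hV (hpr k')
          refine gad_le hV (hpr k') ?_
          have e1 : xc T gam S (.pr j k') = S (el T j k') := rfl
          rw [e1]
          linarith
        · refine jam_le hV ?_
          simp [jx]
  · refine ht _ (hb _) ?_
    simp only [xc, yc]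
    norm_num
  · intro s s' t
    have := xc_ho hV s' t
    cases s
    · refine hf _ rfl ?_
      simp only [yc]
      linarith
    · refine ht _ rfl ?_
      simp only [yc]
      linarith

/-- the position of the slope of a third top vertex relative to two adjacent ones -/
theorem third (hV : View T j gam sg mu S Q) (t : Bool) {k : Fin 5} (h1 : k ≠ 1)
    (h2 : k ≠ kk t) :
    S (el T j k) ≤ min (S (el T j (kk t))) (S (el T j 1)) - gam ∨
      max (S (el T j (kk t))) (S (el T j 1)) + gam ≤ S (el T j k) := by
  have a1 := S_dist hV h1
  have a2 := S_dist hV h2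
  have hg := hV.gam_pos
  have b0 := hV.S_big 0 (by decide)
  have b1 := hV.S_big 1 (by decide)
  have b2 := hV.S_big 2 (by decide)
  have b4 := hV.S_last
  have hcase : (S (el T j k) < S (el T j (kk t)) ∧ S (el T j k) < S (el T j 1)) ∨
      (S (el T j (kk t)) < S (el T j k) ∧ S (el T j 1) < S (el T j k)) := by
    rcases hV.S_mid with ⟨c1, c2⟩ | ⟨c1, c2⟩ <;> cases t <;> fin_cases k <;>
      simp only [kk, Bool.false_eq_true, if_true, if_false, ne_eq, Fin.zero_eta, Fin.mk_one,
        Fin.reduceFinMk, not_true_eq_false] at h1 h2 ⊢ <;>
      first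
      | exact absurd rfl h1
      | exact absurd rfl h2
      | (left; constructor <;> linarith)
      | (right; constructor <;> linarith)
  rcases hcase with ⟨c1, c2⟩ | ⟨c1, c2⟩
  · left
    rw [abs_of_neg (by linarith)] at a1 a2
    rw [le_sub_iff_add_le, le_min_iff]
    constructor <;> linarith
  · right
    rw [abs_of_pos (by linarith)] at a1 a2
    rw [← le_sub_iff_add_le, max_le_iff]
    constructor <;> linarith

theorem two_gap (hV : View T j gam sg mu S Q) (t : Bool) :
    min (S (el T j (kk t))) (S (el T j 1)) + gam ≤ max (S (el T j (kk t))) (S (el T j 1)) := by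
  have h : kk t ≠ 1 := by cases t <;> decide
  have a := S_dist hV h
  have := max_sub_min_eq_abs (S (el T j (kk t))) (S (el T j 1))
  rw [abs_sub_comm] at this
  linarith

theorem hoo : HooStmt := by
  intro n m T j gam sg mu S Q hV s t
  have hsg := hV.sg_pos
  have hr : 0 < sg / 100 := by positivity
  have hgam := hV.gam_pos
  have hgam' := hV.gam_le
  have hb : Gad j (Vx.ho j s t : Vx n m) := rfl
  have hpr : ∀ k', Gad j (Vx.pr j k' : Vx n m) := fun _ => rfl
  have hgap := two_gap hV t
  set a := min (S (el T j (kk t))) (S (el T j 1)) with ha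
  set b := max (S (el T j (kk t))) (S (el T j 1)) with hb'
  have ha1 : a ≤ S (el T j (kk t)) := min_le_left _ _
  have ha2 : a ≤ S (el T j 1) := min_le_right _ _
  have hb1 : S (el T j (kk t)) ≤ b := le_max_left _ _
  have hb2 : S (el T j 1) ≤ b := le_max_right _ _
  have ha3 : -(11 / 10) ≤ a := le_min (le_S hV _) (le_S hV _)
  have hb3 : b ≤ 11 / 10 := max_le (S_le hV _) (S_le hV _)
  have hprx : ∀ k', xc T gam S (.pr j k') = S (el T j k') := fun _ => rfl
  have hpry : ∀ k', yc T S (.pr j k') = 100 + S (el T j k') ^ 2 := fun _ => rfl
  have hyb : ∀ s' t', yc T S (.ho j s' t') = 1 := fun _ _ => rfl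
  have hsq : ∀ k', S (el T j k') ^ 2 ≤ 121 / 100 := fun _ => S_sq hV _
  have hsq' : ∀ k', 0 ≤ S (el T j k') ^ 2 := fun _ => sq_nonneg _
  have hmul : ∀ k', gam * S (el T j k') ^ 2 ≤ gam * (121 / 100) := fun k' =>
    mul_le_mul_of_nonneg_left (hsq k') hgam.le
  have hmul' : ∀ k', 0 ≤ gam * S (el T j k') ^ 2 := fun k' => by positivity
  cases s
  · have hq : xc T gam S (.ho j false t) = a - gam / 2 := rfl
    have near : ∀ v, 0 < aff (gam / 40000 * (sg / 100), 1, -(a - gam / 2 - gam / 40000)) (Q v) →
        OutCone (Gr T) Q (.ho j false t) v := by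
      intro v hv
      refine ⟨_, ?_, hv, ?_⟩
      · refine gad_zero hV hb ?_
        rw [hq, hyb]; ring
      · intro y hy
        rcases adj_ho hy with rfl | rfl | rfl
        · refine gad_le hV (hpr 1) ?_
          rw [hprx, hpry]
          linarith [hmul 1]
        · refine gad_le hV (hpr _) ?_
          rw [hprx, hpry]
          linarith [hmul (kk t)]
        · refine jam_le hV ?_
          simp [jx]
    have far : ∀ v, 0 < aff (-(b - (a - gam / 2)) * (sg / 100), -(99 + b ^ 2),
        -((b - (a - gam / 2)) - (99 + b ^ 2) * (a - gam / 2))) (Q v) →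
        OutCone (Gr T) Q (.ho j false t) v := by
      intro v hv
      have hbb : b ^ 2 ≤ 2 := by nlinarith
      have hpr' : ∀ k', a ≤ S (el T j k') → S (el T j k') ≤ b →
          aff (-(b - (a - gam / 2)) * (sg / 100), -(99 + b ^ 2),
            -((b - (a - gam / 2)) - (99 + b ^ 2) * (a - gam / 2))) (Q (.pr j k')) ≤ 0 := by
        intro k' h1 h2
        refine gad_le hV (hpr k') ?_
        rw [hprx, hpry]
        have e : -(b - (a - gam / 2)) * (100 + S (el T j k') ^ 2) -
            -(99 + b ^ 2) * S (el T j k') -
            -((b - (a - gam / 2)) - (99 + b ^ 2) * (a - gam / 2)) =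
            -((b - S (el T j k')) * (99 - b * S (el T j k') +
              (a - gam / 2) * (S (el T j k') + b))) := by ring
        rw [e]
        have h3 := S_le hV (el T j k')
        have h4 := le_S hV (el T j k')
        have h5 : |b * S (el T j k')| ≤ 2 * 2 := by
          rw [abs_mul]
          refine mul_le_mul ?_ ?_ (abs_nonneg _) (by norm_num)
          · rw [abs_le]; constructor <;> linarith
          · rw [abs_le]; constructor <;> linarith
        have h6 : |(a - gam / 2) * (S (el T j k') + b)| ≤ 2 * 3 := by
          rw [abs_mul]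
          refine mul_le_mul ?_ ?_ (abs_nonneg _) (by norm_num)
          · rw [abs_le]; constructor <;> linarith
          · rw [abs_le]; constructor <;> linarith
        have h7 := (abs_le.1 h5).2
        have h8 := (abs_le.1 h6).1
        have h9 : 0 ≤ (b - S (el T j k')) * (99 - b * S (el T j k') +
              (a - gam / 2) * (S (el T j k') + b)) :=
          mul_nonneg (by linarith) (by linarith)
        linarith
      refine ⟨_, ?_, hv, ?_⟩
      · refine gad_zero hV hb ?_
        rw [hq, hyb]; ring
      · intro y hy
        rcases adj_ho hy with rfl | rfl | rfl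
        · exact hpr' _ ha2 hb2
        · exact hpr' _ ha1 hb1
        · refine jam_le hV ?_
          simp only [jx, Bool.false_eq_true, if_false]
          nlinarith
    refine ⟨?_, ?_, ?_⟩
    · refine near _ (jam_pos hV ?_)
      simp only [jx, Bool.not_false, if_true]
      linarith
    · intro k hk1 hk2
      rcases third hV t hk1 hk2 with h | h
      · refine near _ (gad_pos hV (hpr k) ?_)
        rw [hprx, hpry]
        linarith [hmul' k]
      · refine far _ (gad_pos hV (hpr k) ?_)
        rw [hprx, hpry]
        have e : -(b - (a - gam / 2)) * (100 + S (el T j k) ^ 2) -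
            -(99 + b ^ 2) * S (el T j k) -
            -((b - (a - gam / 2)) - (99 + b ^ 2) * (a - gam / 2)) =
            (S (el T j k) - b) * (99 - b * S (el T j k) +
              (a - gam / 2) * (S (el T j k) + b)) := by ring
        rw [e]
        have h3 := S_le hV (el T j k)
        have h4 := le_S hV (el T j k)
        have h5 : |b * S (el T j k)| ≤ 2 * 2 := by
          rw [abs_mul]
          refine mul_le_mul ?_ ?_ (abs_nonneg _) (by norm_num)
          · rw [abs_le]; constructor <;> linarith
          · rw [abs_le]; constructor <;> linarith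
        have h6 : |(a - gam / 2) * (S (el T j k) + b)| ≤ 2 * 3 := by
          rw [abs_mul]
          refine mul_le_mul ?_ ?_ (abs_nonneg _) (by norm_num)
          · rw [abs_le]; constructor <;> linarith
          · rw [abs_le]; constructor <;> linarith
        have h7 := (abs_le.1 h5).2
        have h8 := (abs_le.1 h6).1
        exact mul_pos (by linarith) (by linarith)
    · intro s' t' hst
      have hne := ho_inj hV hst
      have hg' : Gad j (Vx.ho j s' t' : Vx n m) := rfl
      rcases lt_or_gt_of_ne hne with h | h
      · refine far _ (gad_pos hV hg' ?_)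
        rw [hyb]
        rw [hq] at h
        have : 0 < (99 + b ^ 2) * (xc T gam S (.ho j s' t') - (a - gam / 2)) :=
          mul_pos (by positivity) (by linarith)
        linarith
      · refine near _ (gad_pos hV hg' ?_)
        rw [hyb]
        rw [hq] at h
        linarith
  · have hq : xc T gam S (.ho j true t) = b + gam / 2 := rfl
    have near : ∀ v, 0 < aff (gam / 40000 * (sg / 100), -1, b + gam / 2 + gam / 40000) (Q v) →
        OutCone (Gr T) Q (.ho j true t) v := by
      intro v hv
      refine ⟨_, ?_, hv, ?_⟩
      · refine gad_zero hV hb ?_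
        rw [hq, hyb]; ring
      · intro y hy
        rcases adj_ho hy with rfl | rfl | rfl
        · refine gad_le hV (hpr 1) ?_
          rw [hprx, hpry]
          linarith [hmul 1]
        · refine gad_le hV (hpr _) ?_
          rw [hprx, hpry]
          linarith [hmul (kk t)]
        · refine jam_le hV ?_
          simp [jx]
    have far : ∀ v, 0 < aff ((a - (b + gam / 2)) * (sg / 100), (99 + a ^ 2),
        ((a - (b + gam / 2)) - (99 + a ^ 2) * (b + gam / 2))) (Q v) →
        OutCone (Gr T) Q (.ho j true t) v := by
      intro v hv
      have hbb : a ^ 2 ≤ 2 := by nlinarith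
      have hpr' : ∀ k', a ≤ S (el T j k') → S (el T j k') ≤ b →
          aff ((a - (b + gam / 2)) * (sg / 100), (99 + a ^ 2),
            ((a - (b + gam / 2)) - (99 + a ^ 2) * (b + gam / 2))) (Q (.pr j k')) ≤ 0 := by
        intro k' h1 h2
        refine gad_le hV (hpr k') ?_
        rw [hprx, hpry]
        have e : (a - (b + gam / 2)) * (100 + S (el T j k') ^ 2) -
            (99 + a ^ 2) * S (el T j k') -
            ((a - (b + gam / 2)) - (99 + a ^ 2) * (b + gam / 2)) =
            -((S (el T j k') - a) * (99 - a * S (el T j k') +
              (b + gam / 2) * (S (el T j k') + a))) := by ring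
        rw [e]
        have h3 := S_le hV (el T j k')
        have h4 := le_S hV (el T j k')
        have h5 : |a * S (el T j k')| ≤ 2 * 2 := by
          rw [abs_mul]
          refine mul_le_mul ?_ ?_ (abs_nonneg _) (by norm_num)
          · rw [abs_le]; constructor <;> linarith
          · rw [abs_le]; constructor <;> linarith
        have h6 : |(b + gam / 2) * (S (el T j k') + a)| ≤ 2 * 3 := by
          rw [abs_mul]
          refine mul_le_mul ?_ ?_ (abs_nonneg _) (by norm_num)
          · rw [abs_le]; constructor <;> linarith
          · rw [abs_le]; constructor <;> linarith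
        have h7 := (abs_le.1 h5).2
        have h8 := (abs_le.1 h6).1
        have h9 : 0 ≤ (S (el T j k') - a) * (99 - a * S (el T j k') +
              (b + gam / 2) * (S (el T j k') + a)) :=
          mul_nonneg (by linarith) (by linarith)
        linarith
      refine ⟨_, ?_, hv, ?_⟩
      · refine gad_zero hV hb ?_
        rw [hq, hyb]; ring
      · intro y hy
        rcases adj_ho hy with rfl | rfl | rfl
        · exact hpr' _ ha2 hb2
        · exact hpr' _ ha1 hb1
        · refine jam_le hV ?_
          simp only [jx, if_true]
          nlinarith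
    refine ⟨?_, ?_, ?_⟩
    · refine near _ (jam_pos hV ?_)
      simp only [jx, Bool.not_true, Bool.false_eq_true, if_false]
      linarith
    · intro k hk1 hk2
      rcases third hV t hk1 hk2 with h | h
      · refine far _ (gad_pos hV (hpr k) ?_)
        rw [hprx, hpry]
        have e : (a - (b + gam / 2)) * (100 + S (el T j k) ^ 2) -
            (99 + a ^ 2) * S (el T j k) -
            ((a - (b + gam / 2)) - (99 + a ^ 2) * (b + gam / 2)) =
            (a - S (el T j k)) * (99 - a * S (el T j k) +
              (b + gam / 2) * (S (el T j k) + a)) := by ring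
        rw [e]
        have h3 := S_le hV (el T j k)
        have h4 := le_S hV (el T j k)
        have h5 : |a * S (el T j k)| ≤ 2 * 2 := by
          rw [abs_mul]
          refine mul_le_mul ?_ ?_ (abs_nonneg _) (by norm_num)
          · rw [abs_le]; constructor <;> linarith
          · rw [abs_le]; constructor <;> linarith
        have h6 : |(b + gam / 2) * (S (el T j k) + a)| ≤ 2 * 3 := by
          rw [abs_mul]
          refine mul_le_mul ?_ ?_ (abs_nonneg _) (by norm_num)
          · rw [abs_le]; constructor <;> linarith
          · rw [abs_le]; constructor <;> linarith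
        have h7 := (abs_le.1 h5).2
        have h8 := (abs_le.1 h6).1
        exact mul_pos (by linarith) (by linarith)
      · refine near _ (gad_pos hV (hpr k) ?_)
        rw [hprx, hpry]
        linarith [hmul' k]
    · intro s' t' hst
      have hne := ho_inj hV hst
      have hg' : Gad j (Vx.ho j s' t' : Vx n m) := rfl
      rcases lt_or_gt_of_ne hne with h | h
      · refine near _ (gad_pos hV hg' ?_)
        rw [hyb]
        rw [hq] at h
        linarith
      · refine far _ (gad_pos hV hg' ?_)
        rw [hyb]
        rw [hq] at h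
        have : 0 < (99 + a ^ 2) * ((b + gam / 2) - xc T gam S (.ho j s' t')) :=
          mul_pos (by positivity) (by linarith)
        linarith

end Pool.Agent.SO.H22
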