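import Pool.Agent.Helper22_SO.Below

/-!
# HCX, HDX, HOX: the vertices below a door are exposed
-/

namespace Pool.Agent.SO.H22

open Pool.Agent.SO

variable {n m : ℕ} {T : Fin m → Fin 3 → Fin n} {j : Fin m} {gam sg mu : ℝ}
  {S : Fin (n + 2) → ℝ} {Q : Vx n m → Pt}

/-- the vertices below the door which are not of the form `pr` are adjacent to `pr`s and jambs -/
theorem adj_helper {x y : Vx n m} (hx : Gad j x) (hx' : ∀ k, x ≠ .pr j k)
    (h : (Gr T).Adj x y) : (∃ k, y = .pr j k) ∨ ∃ s, y = .jam j s := by
  obtain ⟨-, h⟩ := h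
  cases x with
  | pr j' k => obtain rfl : j' = j := hx; exact absurd rfl (hx' k)
  | hc j' k => obtain rfl : j' = j := hx; cases y <;> simp_all [adj0]
  | hd j' s => obtain rfl : j' = j := hx; cases y <;> simp_all [adj0]
  | ho j' s t => obtain rfl : j' = j := hx; cases y <;> simp_all [adj0]
  | top i => exact hx.elim
  | hel i => exact hx.elim
  | jam j' s => exact hx.elim
  | hj j' s => exact hx.elim

theorem exposed_gad2 (hV : View T j gam sg mu S Q) {b : Vx n m} (hb : Gad j b) {s : Bool}
    (hadj : (Gr T).Adj b (.jam j s))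
    (hA : ∀ x, Gad j x → (∀ k, x ≠ .pr j k) → x ≠ b → ∃ c, 0 < aff c (Q b) ∧
      (∀ s', aff c (Q (.jam j s')) ≤ 0) ∧ (∀ k, aff c (Q (.pr j k)) ≤ 0) ∧ aff c (Q x) ≤ 0)
    (hC : ∃ c, 0 < aff c (Q b) ∧ (∀ s', aff c (Q (.jam j s')) ≤ 0) ∧
      (∀ k, aff c (Q (.pr j k)) ≤ 0) ∧ ∀ i, aff c (Q (.top i)) ≤ 0) :
    Exposed (Gr T) Q b (.jam j s) := by
  refine exposed_gad hV hb hadj ?_
  intro x y hgx hxy hxb hyb
  by_cases hx : ∀ k, x ≠ .pr j k
  · obtain ⟨c, h1, h2, h3, h4⟩ := hA x hgx hx hxb
    refine ⟨c, h1, (h2 s).trans h1.le, h4, ?_⟩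
    rcases adj_helper hgx hx hxy with ⟨k, rfl⟩ | ⟨s', rfl⟩
    · exact h3 k
    · exact h2 s'
  push Not at hx
  obtain ⟨k, rfl⟩ := hx
  rcases adj_gad hgx hxy with hgy | ⟨s', rfl⟩ | ⟨k', i, -, rfl, -⟩
  · by_cases hy : ∀ k, y ≠ .pr j k
    · obtain ⟨c, h1, h2, h3, h4⟩ := hA y hgy hy hyb
      exact ⟨c, h1, (h2 s).trans h1.le, h3 k, h4⟩
    · push Not at hy
      obtain ⟨k', rfl⟩ := hy
      obtain ⟨c, h1, h2, h3, h4⟩ := hC
      exact ⟨c, h1, (h2 s).trans h1.le, h3 k, h3 k'⟩
  · obtain ⟨c, h1, h2, h3, h4⟩ := hC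
    exact ⟨c, h1, (h2 s).trans h1.le, h3 k, h2 s'⟩
  · obtain ⟨c, h1, h2, h3, h4⟩ := hC
    exact ⟨c, h1, (h2 s).trans h1.le, h3 k, h4 i⟩

theorem jx_abs (hV : View T j gam sg mu S Q) (s : Bool) :
    -(gam / 40000) ≤ jx gam s ∧ jx gam s ≤ gam / 40000 := by
  have := hV.gam_pos
  cases s <;> simp only [jx] <;> constructor <;> simp <;> linarith

/-- bounds for a `hc` -/
theorem xc_hc (hV : View T j gam sg mu S Q) (k : Fin 5) :
    -(282 / 100) ≤ xc T gam S (.hc j k) ∧ xc T gam S (.hc j k) ≤ -(258 / 100) ∧
    92 ≤ yc T S (.hc j k) := by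
  have h1 := S_le hV (el T j k)
  have h2 := le_S hV (el T j k)
  simp only [xc, yc, aC]
  refine ⟨by linarith, by linarith, by nlinarith⟩

theorem hcx : HcxStmt := by
  intro n m T j gam sg mu S Q hV k
  have hsg := hV.sg_pos
  have hr : 0 < sg / 100 := by positivity
  have hgam := hV.gam_pos
  have hgam' := hV.gam_le
  have hb : Gad j (Vx.hc j k : Vx n m) := rfl
  have hS1 := S_le hV (el T j k)
  have hS2 := le_S hV (el T j k)
  have hS3 := S_sq hV (el T j k)
  have hpr : ∀ k', Gad j (Vx.pr j k' : Vx n m) := fun _ => rfl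
  obtain ⟨hx1, hx2, hy1⟩ := xc_hc hV k
  obtain ⟨hb1, hb2⟩ := gad_small hV hb
  have hA : ∀ x, Gad j x → xc T gam S x ≥ -2 → ∃ c, 0 < aff c (Q (.hc j k)) ∧
      (∀ s', aff c (Q (.jam j s')) ≤ 0) ∧ (∀ k, aff c (Q (.pr j k)) ≤ 0) ∧
      aff c (Q x) ≤ 0 := by
    intro x hx hxx
    refine ⟨(-(gam / 40000) * (sg / 100), 1, 23 / 10), ?_, ?_, ?_, ?_⟩
    · refine gad_pos hV hb ?_
      linarith
    · intro s'
      have := jx_abs hV s'
      exact jam_le hV (by linarith)
    · intro k'
      have h := S_le hV (el T j k')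
      have h' := le_S hV (el T j k')
      have h2 := gad_small hV (hpr k')
      refine gad_le hV (hpr k') ?_
      simp only [xc]
      linarith
    · have h2 := gad_small hV hx
      refine gad_le hV hx ?_
      linarith
  refine exposed_gad2 hV hb ⟨by simp, Or.inl (by simp [adj0])⟩ ?_ ?_
  · intro x hx hx' hxb
    have hx0 := hx
    cases x with
    | pr j' k' => obtain rfl : j' = j := hx0; exact absurd rfl (hx' k')
    | top i => exact hx.elim
    | hel i => exact hx.elim
    | jam j' s => exact hx.elim
    | hj j' s => exact hx.elim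
    | hd j' s =>
      obtain rfl : j' = j := hx0
      refine hA _ hx ?_
      cases s <;> simp only [xc] <;> norm_num
    | ho j' s t =>
      obtain rfl : j' = j := hx0
      exact hA _ hx (by linarith [(xc_ho hV s t).1])
    | hc j' k' =>
      obtain rfl : j' = j := hx0
      have hT1 := S_le hV (el T j' k')
      have hT2 := le_S hV (el T j' k')
      have hT3 := S_sq hV (el T j' k')
      have hne : k' ≠ k := fun h => hxb (by rw [h])
      have hgap := S_dist hV hne
      rcases lt_or_ge (S (el T j' k')) (S (el T j' k)) with hlt | hge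
      · rw [abs_of_neg (by linarith)] at hgap
        refine ⟨(-1 * (sg / 100), -2 * S (el T j' k'), -(100 - S (el T j' k') ^ 2)),
          ?_, ?_, ?_, ?_⟩
        · refine gad_pos hV hb ?_
          simp only [xc, yc, aC]
          nlinarith
        · intro s'
          have := jx_abs hV s'
          exact jam_le hV (by nlinarith)
        · intro i
          refine gad_le hV (hpr i) ?_
          simp only [xc, yc]
          nlinarith [sq_nonneg (S (el T j' i) - S (el T j' k'))]
        · refine gad_le hV hx ?_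
          simp only [xc, yc]
          linarith
      · rw [abs_of_nonneg (by linarith)] at hgap
        refine ⟨(-(gam / 40000) * (sg / 100), 1,
          -((xc T gam S (Vx.hc j' k) + xc T gam S (Vx.hc j' k')) / 2)), ?_, ?_, ?_, ?_⟩
        · refine gad_pos hV hb ?_
          simp only [xc, aC] at *
          linarith
        · intro s'
          have := jx_abs hV s'
          exact jam_le hV (by linarith)
        · intro i
          have hS := le_S hV (el T j' i)
          have h2 := gad_small hV (hpr i)
          refine gad_le hV (hpr i) ?_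
          simp only [xc, aC] at *
          linarith
        · have h2 := gad_small hV hx
          refine gad_le hV hx ?_
          simp only [xc, aC] at *
          linarith
  · refine ⟨(-(1 / 50) * (sg / 100), 1 / 2, -1), ?_, ?_, ?_, ?_⟩
    · refine gad_pos hV hb ?_
      simp only [xc, yc, aC]
      nlinarith
    · intro s'
      have := jx_abs hV s'
      exact jam_le hV (by linarith)
    · intro i
      have hS := le_S hV (el T j i)
      refine gad_le hV (hpr i) ?_
      simp only [xc, yc]
      nlinarith [sq_nonneg (S (el T j i))]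
    · intro i
      have h1 := (abs_le.1 (hV.top_u i)).2
      have h2 := (hV.top_v i).1
      have h3 := hV.sg_le
      simp only [aff]
      nlinarith

theorem hdx : HdxStmt := by
  intro n m T j gam sg mu S Q hV s
  have hsg := hV.sg_pos
  have hr : 0 < sg / 100 := by positivity
  have hgam := hV.gam_pos
  have hgam' := hV.gam_le
  have hb : Gad j (Vx.hd j s : Vx n m) := rfl
  have hpr : ∀ k', Gad j (Vx.pr j k' : Vx n m) := fun _ => rfl
  obtain ⟨hb1, hb2⟩ := gad_small hV hb
  have hC : ∃ c, 0 < aff c (Q (.hd j s)) ∧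
      (∀ s', aff c (Q (.jam j s')) ≤ 0) ∧ (∀ k, aff c (Q (.pr j k)) ≤ 0) ∧
      (∀ i, aff c (Q (.top i)) ≤ 0) ∧ ∀ k, aff c (Q (.hc j k)) ≤ 0 := by
    refine ⟨(-(1 / 60) * (sg / 100), 0, -1), ?_, ?_, ?_, ?_, ?_⟩
    · refine gad_pos hV hb ?_
      simp only [yc]
      norm_num
    · intro s'
      exact jam_le hV (by norm_num)
    · intro i
      refine gad_le hV (hpr i) ?_
      simp only [yc]
      nlinarith [sq_nonneg (S (el T j i))]
    · intro i
      have h2 := (hV.top_v i).1
      simp only [aff]
      nlinarith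
    · intro k
      refine gad_le hV (show Gad j (Vx.hc j k : Vx n m) from rfl) ?_
      linarith [(xc_hc hV k).2.2]
  obtain ⟨c, h1, h2, h3, h4, h5⟩ := hC
  refine exposed_gad2 hV hb ⟨by simp, Or.inl (by cases s <;> simp [adj0])⟩ ?_
    ⟨c, h1, h2, h3, h4⟩
  intro x hx hx' hxb
  have hx0 := hx
  cases x with
  | pr j' k' => obtain rfl : j' = j := hx0; exact absurd rfl (hx' k')
  | top i => exact hx.elim
  | hel i => exact hx.elim
  | jam j' s => exact hx.elim
  | hj j' s => exact hx.elim
  | hc j' k' => obtain rfl : j' = j := hx0; exact ⟨c, h1, h2, h3, h5 k'⟩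
  | hd j' s' =>
    obtain rfl : j' = j := hx0
    have hss : s' ≠ s := fun h => hxb (by rw [h])
    cases s
    · obtain rfl : s' = true := by simpa using hss
      refine ⟨(-(gam / 40000) * (sg / 100), -1, 3 / 2), ?_, ?_, ?_, ?_⟩
      · refine gad_pos hV hb ?_
        simp only [xc]
        linarith
      · intro s'
        have := jx_abs hV s'
        exact jam_le hV (by linarith)
      · intro i
        have hS := S_le hV (el T j' i)
        have h2 := gad_small hV (hpr i)
        refine gad_le hV (hpr i) ?_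
        simp only [xc]
        linarith
      · have h2 := gad_small hV hx
        refine gad_le hV hx ?_
        simp only [xc]
        linarith
    · obtain rfl : s' = false := by simpa using hss
      refine ⟨(-(gam / 40000) * (sg / 100), 1, 3 / 2), ?_, ?_, ?_, ?_⟩
      · refine gad_pos hV hb ?_
        simp only [xc]
        linarith
      · intro s'
        have := jx_abs hV s'
        exact jam_le hV (by linarith)
      · intro i
        have hS := le_S hV (el T j' i)
        have h2 := gad_small hV (hpr i)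
        refine gad_le hV (hpr i) ?_
        simp only [xc]
        linarith
      · have h2 := gad_small hV hx
        refine gad_le hV hx ?_
        simp only [xc]
        linarith
  | ho j' s' t =>
    obtain rfl : j' = j := hx0
    have hq := xc_ho hV s' t
    cases s
    · refine ⟨(-(gam / 40000) * (sg / 100), -1, 3 / 2), ?_, ?_, ?_, ?_⟩
      · refine gad_pos hV hb ?_
        simp only [xc]
        linarith
      · intro s'
        have := jx_abs hV s'
        exact jam_le hV (by linarith)
      · intro i
        have hS := S_le hV (el T j' i)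
        have h2 := gad_small hV (hpr i)
        refine gad_le hV (hpr i) ?_
        simp only [xc]
        linarith
      · have h2 := gad_small hV hx
        refine gad_le hV hx ?_
        linarith
    · refine ⟨(-(gam / 40000) * (sg / 100), 1, 3 / 2), ?_, ?_, ?_, ?_⟩
      · refine gad_pos hV hb ?_
        simp only [xc]
        linarith
      · intro s'
        have := jx_abs hV s'
        exact jam_le hV (by linarith)
      · intro i
        have hS := le_S hV (el T j' i)
        have h2 := gad_small hV (hpr i)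
        refine gad_le hV (hpr i) ?_
        simp only [xc]
        linarith
      · have h2 := gad_small hV hx
        refine gad_le hV hx ?_
        linarith

set_option linter.unusedSimpArgs false in
/-- the slopes of the vertices `ho` are different -/
theorem ho_inj (hV : View T j gam sg mu S Q) {s t s' t' : Bool}
    (h : ¬ (s' = s ∧ t' = t)) : xc T gam S (.ho j s t) ≠ xc T gam S (.ho j s' t') := by
  have hg := hV.gam_pos
  simp only [xc]
  rcases hV.S_mid with ⟨h1, h2⟩ | ⟨h1, h2⟩ <;> cases s <;> cases t <;> cases s' <;> cases t' <;>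
    first
    | exact absurd ⟨rfl, rfl⟩ h
    | (simp only [kk, Bool.false_eq_true, if_true, if_false]
       simp only [min_eq_left h1.le, min_eq_right h1.le, min_eq_left h2.le, min_eq_right h2.le,
         max_eq_left h1.le, max_eq_right h1.le, max_eq_left h2.le, max_eq_right h2.le]
       first
       | (apply ne_of_gt; linarith)
       | (apply ne_of_lt; linarith))

theorem hox : HoxStmt := by
  intro n m T j gam sg mu S Q hV s t
  have hsg := hV.sg_pos
  have hr : 0 < sg / 100 := by positivity
  have hgam := hV.gam_pos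
  have hgam' := hV.gam_le
  have hb : Gad j (Vx.ho j s t : Vx n m) := rfl
  have hpr : ∀ k', Gad j (Vx.pr j k' : Vx n m) := fun _ => rfl
  obtain ⟨hq1, hq2⟩ := xc_ho hV s t
  have hC : ∃ c, 0 < aff c (Q (.ho j s t)) ∧
      (∀ s', aff c (Q (.jam j s')) ≤ 0) ∧ (∀ k, aff c (Q (.pr j k)) ≤ 0) ∧
      (∀ i, aff c (Q (.top i)) ≤ 0) ∧ (∀ k, aff c (Q (.hc j k)) ≤ 0) ∧
      ∀ s, aff c (Q (.hd j s)) ≤ 0 := by
    refine ⟨(-(1 / 2) * (sg / 100), 0, -1), ?_, ?_, ?_, ?_, ?_, ?_⟩
    · refine gad_pos hV hb ?_
      simp only [yc]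
      norm_num
    · intro s'
      exact jam_le hV (by norm_num)
    · intro i
      refine gad_le hV (hpr i) ?_
      simp only [yc]
      nlinarith [sq_nonneg (S (el T j i))]
    · intro i
      have h2 := (hV.top_v i).1
      simp only [aff]
      nlinarith
    · intro k
      refine gad_le hV (show Gad j (Vx.hc j k : Vx n m) from rfl) ?_
      linarith [(xc_hc hV k).2.2]
    · intro s
      refine gad_le hV (show Gad j (Vx.hd j s : Vx n m) from rfl) ?_
      simp only [yc]
      norm_num
  obtain ⟨c, h1, h2, h3, h4, h5, h6⟩ := hC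
  refine exposed_gad2 hV hb ⟨by simp, Or.inl (by cases s <;> simp [adj0])⟩ ?_
    ⟨c, h1, h2, h3, h4⟩
  intro x hx hx' hxb
  have hx0 := hx
  cases x with
  | pr j' k' => obtain rfl : j' = j := hx0; exact absurd rfl (hx' k')
  | top i => exact hx.elim
  | hel i => exact hx.elim
  | jam j' s => exact hx.elim
  | hj j' s => exact hx.elim
  | hc j' k' => obtain rfl : j' = j := hx0; exact ⟨c, h1, h2, h3, h5 k'⟩
  | hd j' s' => obtain rfl : j' = j := hx0; exact ⟨c, h1, h2, h3, h6 s'⟩
  | ho j' s' t' =>
    obtain rfl : j' = j := hx0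
    obtain ⟨hr1, hr2⟩ := xc_ho hV s' t'
    have hne : xc T gam S (.ho j' s t) ≠ xc T gam S (.ho j' s' t') := by
      refine ho_inj hV ?_
      rintro ⟨rfl, rfl⟩
      exact hxb rfl
    have key : ∀ tau : ℝ, tau ^ 2 = 1 →
        0 < tau * (xc T gam S (.ho j' s t) - xc T gam S (.ho j' s' t')) →
        ∃ c, 0 < aff c (Q (.ho j' s t)) ∧ (∀ s', aff c (Q (.jam j' s')) ≤ 0) ∧
          (∀ k, aff c (Q (.pr j' k)) ≤ 0) ∧ aff c (Q (.ho j' s' t')) ≤ 0 := by
      intro tau htau hpos
      have ht1 : -1 ≤ tau := by nlinarith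
      have ht2 : tau ≤ 1 := by nlinarith
      refine ⟨(-1 * (sg / 100), -tau, -1 + tau * ((xc T gam S (.ho j' s t) +
        xc T gam S (.ho j' s' t')) / 2)), ?_, ?_, ?_, ?_⟩
      · refine gad_pos hV hb ?_
        simp only [yc]
        linarith
      · intro s'
        have := jx_abs hV s'
        exact jam_le hV (by nlinarith)
      · intro i
        have hS := le_S hV (el T j' i)
        have hS' := S_le hV (el T j' i)
        refine gad_le hV (hpr i) ?_
        have e1 : xc T gam S (.pr j' i) = S (el T j' i) := rfl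
        have e2 : yc T S (.pr j' i) = 100 + S (el T j' i) ^ 2 := rfl
        rw [e1, e2]
        nlinarith [sq_nonneg (S (el T j' i))]
      · refine gad_le hV hx ?_
        simp only [yc]
        linarith
    rcases lt_or_gt_of_ne hne with h | h
    · exact key (-1) (by norm_num) (by linarith)
    · exact key 1 (by norm_num) (by linarith)

end Pool.Agent.SO.H22
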